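import Pool.Agent.H18.KO.Fcp

set_option autoImplicit false

open FirstOrder FirstOrder.Language Cardinal Filter

namespace Pool.Agent.H18.KO

instance : Countable (Σ n, Lg.Relations n) := by
  have h : Function.Surjective (fun k : ℕ => (⟨2, Rel.R k⟩ : Σ n, Lg.Relations n)) := by
    rintro ⟨n, r⟩
    cases r with
    | R k => exact ⟨k, rfl⟩
  exact h.countable

theorem card_Lg : Lg.card ≤ ℵ₀ := by
  have h1 : Countable Lg.Symbols := by
    unfold Language.Symbols
    have : IsEmpty (Σ n, Lg.Functions n) := ⟨fun x => Empty.elim x.2⟩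
    infer_instance
  exact Cardinal.mk_le_aleph0_iff.2 h1

theorem complete_T (b : ℕ → Bool) : (T b).IsComplete :=
  completeTheory.isMaximal (L := Lg) (Str b) |>.isComplete

theorem term_realize (b b' : ℕ → Bool) {α : Type} (t : Lg.Term α) (v : α → ℕ) :
    (t.realize (M := Str b) v : ℕ) = t.realize (M := Str b') v := by
  induction t with
  | var a => rfl
  | func f _ _ => exact Empty.elim f

/-- the truth of a formula in `Str b` only depends on finitely many values of `b` -/
theorem formula_use {α : Type} {n : ℕ} (φ : Lg.BoundedFormula α n) :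
    ∃ k : ℕ, ∀ b b' : ℕ → Bool, (∀ j < k, b j = b' j) → ∀ (v : α → ℕ) (xs : Fin n → ℕ),
      (φ.Realize (M := Str b) v xs ↔ φ.Realize (M := Str b') v xs) := by
  induction φ with
  | falsum => exact ⟨0, fun b b' _ v xs => Iff.rfl⟩
  | equal t₁ t₂ =>
    refine ⟨0, fun b b' _ v xs => ?_⟩
    show (t₁.realize (M := Str b) _ = t₂.realize (M := Str b) _) ↔
      (t₁.realize (M := Str b') _ = t₂.realize (M := Str b') _)
    have h1 := term_realize b b' t₁ (Sum.elim v xs)
    have h2 := term_realize b b' t₂ (Sum.elim v xs)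
    constructor
    · intro h
      exact h1.symm.trans (Eq.trans h h2)
    · intro h
      exact h1.trans (Eq.trans h h2.symm)
  | rel R ts =>
    cases R with
    | R j =>
      refine ⟨j + 1, fun b b' hb v xs => ?_⟩
      have hj := hb j (Nat.lt_succ_self j)
      have h0 := term_realize b b' (ts 0) (Sum.elim v xs)
      have h1 := term_realize b b' (ts 1) (Sum.elim v xs)
      show (b j = true ∧ Nat.log 2 ((ts 0).realize (M := Str b) (Sum.elim v xs)) =
          Nat.log 2 ((ts 1).realize (M := Str b) (Sum.elim v xs))) ↔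
        (b' j = true ∧ Nat.log 2 ((ts 0).realize (M := Str b') (Sum.elim v xs)) =
          Nat.log 2 ((ts 1).realize (M := Str b') (Sum.elim v xs)))
      rw [hj]
      have e0 : Nat.log 2 ((ts 0).realize (M := Str b) (Sum.elim v xs)) =
        Nat.log 2 ((ts 0).realize (M := Str b') (Sum.elim v xs)) := congrArg _ h0
      have e1 : Nat.log 2 ((ts 1).realize (M := Str b) (Sum.elim v xs)) =
        Nat.log 2 ((ts 1).realize (M := Str b') (Sum.elim v xs)) := congrArg _ h1
      rw [e0, e1]
  | imp _ _ ih₁ ih₂ =>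
    obtain ⟨k₁, h₁⟩ := ih₁
    obtain ⟨k₂, h₂⟩ := ih₂
    refine ⟨max k₁ k₂, fun b b' hb v xs => ?_⟩
    exact imp_congr (h₁ b b' (fun j hj => hb j (lt_of_lt_of_le hj (le_max_left _ _))) v xs)
      (h₂ b b' (fun j hj => hb j (lt_of_lt_of_le hj (le_max_right _ _))) v xs)
  | all _ ih =>
    obtain ⟨k, h⟩ := ih
    refine ⟨k, fun b b' hb v xs => ?_⟩
    exact forall_congr' fun x => h b b' hb v (Fin.snoc xs x)

theorem use_T (σ : Lg.Sentence) : ∃ k : ℕ, ∀ b b' : ℕ → Bool, (∀ j < k, b j = b' j) →
    (σ ∈ T b ↔ σ ∈ T b') := by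
  obtain ⟨k, hk⟩ := formula_use σ
  refine ⟨k, fun b b' hb => ?_⟩
  show (Str b ⊨ σ) ↔ (Str b' ⊨ σ)
  unfold Sentence.Realize Formula.Realize
  have h1 := hk b b' hb (fun a => Empty.elim a) (fun i => Fin.elim0 i)
  have e1 : (default : Empty → Str b) = fun a => Empty.elim a := funext fun a => Empty.elim a
  have e2 : (default : Fin 0 → Str b) = fun i => Fin.elim0 i := funext fun i => Fin.elim0 i
  have e3 : (default : Empty → Str b') = fun a => Empty.elim a := funext fun a => Empty.elim a
  have e4 : (default : Fin 0 → Str b') = fun i => Fin.elim0 i := funext fun i => Fin.elim0 i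
  rw [e1, e2, e3, e4]
  exact h1

/-- the bits of the `e`-th program: has it stopped (on input `0`) after `n` steps? -/
def bits (e n : ℕ) : Bool := ((Denumerable.ofNat Nat.Partrec.Code e).evaln n 0).isSome

theorem bits_computable : Computable₂ bits := by
  have h1 : Primrec fun a : ℕ × ℕ =>
      Nat.Partrec.Code.evaln a.2 (Denumerable.ofNat Nat.Partrec.Code a.1) 0 :=
    Nat.Partrec.Code.primrec_evaln.comp
      (((Primrec.snd.pair ((Primrec.ofNat Nat.Partrec.Code).comp Primrec.fst))).pair (Primrec.const 0))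
  exact (Primrec.option_isSome.comp h1).to_comp

theorem bits_iff (e : ℕ) : (∀ n, bits e n = false) ↔
    ¬ (Nat.Partrec.Code.eval (Denumerable.ofNat Nat.Partrec.Code e) 0).Dom := by
  constructor
  · intro h hd
    rw [Part.dom_iff_mem] at hd
    obtain ⟨y, hy⟩ := hd
    rw [Nat.Partrec.Code.evaln_complete] at hy
    obtain ⟨k, hk⟩ := hy
    have h1 := h k
    unfold bits at h1
    rw [Option.mem_def] at hk
    rw [hk] at h1
    simp at h1
  · intro h n
    by_contra hn
    rw [Bool.not_eq_false] at hn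
    unfold bits at hn
    rw [Option.isSome_iff_exists] at hn
    obtain ⟨y, hy⟩ := hn
    apply h
    rw [Part.dom_iff_mem]
    exact ⟨y, Nat.Partrec.Code.evaln_complete.2 ⟨n, hy⟩⟩

theorem undecided (P : ℕ → Prop) (hP : REPred P) (hs : ∀ e, P e → KeislerLE (T (bits e)) T₀) :
    ∃ e, KeislerLE (T (bits e)) T₀ ∧ ¬ P e := by
  by_contra hcon
  push Not at hcon
  have h1 : ∀ e, P e ↔ ¬ (Nat.Partrec.Code.eval (Denumerable.ofNat Nat.Partrec.Code e) 0).Dom := by
    intro e
    rw [← bits_iff, ← keisler_iff]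
    exact ⟨hs e, hcon e⟩
  apply ComputablePred.halting_problem_not_re 0
  have h2 : REPred fun c : Nat.Partrec.Code => P (Encodable.encode c) :=
    hP.comp Computable.encode
  refine h2.of_eq fun c => ?_
  rw [h1]
  simp

end Pool.Agent.H18.KO
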