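import Mathlib

/-!
# Keisler's order (MP_de230a_lc): definitions
-/

set_option autoImplicit false

open FirstOrder Cardinal Filter

namespace Pool.Agent.H18.KO

/-- An ultrafilter `D` on `I` is regular if there is a family `X i`, `i ∈ I`, of members of `D` such that every
point lies in only finitely many `X i`. -/
def Regular {I : Type} (D : Ultrafilter I) : Prop :=
  ∃ X : I → Set I, (∀ i, X i ∈ D) ∧ ∀ t : I, {i | t ∈ X i}.Finite

/-- `N` is `κ⁺`-saturated: for every set `A` of at most `κ` parameters, every set of formulas in one variable `x`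
(the variable `Sum.inr ()`) with parameters in `A` that is finitely satisfiable in `N` is realised in `N`. -/
def Saturated (L : FirstOrder.Language.{0, 0}) (N : Type) [L.Structure N] (κ : Cardinal.{0}) : Prop :=
  ∀ A : Set N, #A ≤ κ → ∀ p : Set (L.Formula (A ⊕ Unit)),
    (∀ q : Finset (L.Formula (A ⊕ Unit)), (q : Set (L.Formula (A ⊕ Unit))) ⊆ p →
      ∃ x : N, ∀ φ ∈ q, φ.Realize (Sum.elim (fun a : A => (a : N)) (fun _ => x))) →
    ∃ x : N, ∀ φ ∈ p, φ.Realize (Sum.elim (fun a : A => (a : N)) (fun _ => x))

/-- `D` saturates `T`: the ultrapower `M ^ I / D` of every model `M` of `T` is `|I|⁺`-saturated. -/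
def Saturates {L : FirstOrder.Language.{0, 0}} {I : Type} (D : Ultrafilter I) (T : L.Theory) : Prop :=
  ∀ (M : Type) [L.Structure M] [Nonempty M], M ⊨ T →
    Saturated L ((D : Filter I).Product fun _ => M) (#I)

/-- Keisler's order `T₁ ⊴ T₂`. -/
def KeislerLE {L₁ L₂ : FirstOrder.Language.{0, 0}} (T₁ : L₁.Theory) (T₂ : L₂.Theory) : Prop :=
  ∀ (I : Type) [Infinite I] (D : Ultrafilter I), Regular D → Saturates D T₂ → Saturates D T₁

/-- The relation symbols: binary symbols `R 0, R 1, R 2, …`. -/
inductive Rel : ℕ → Type
  | R (k : ℕ) : Rel 2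

/-- The language with the binary relation symbols `R 0, R 1, …` and nothing else. -/
def Lg : FirstOrder.Language.{0, 0} := ⟨fun _ => Empty, Rel⟩

/-- The natural numbers, as a structure depending on a sequence of bits `b`. -/
def Str (_ : ℕ → Bool) : Type := ℕ

instance (b : ℕ → Bool) : Nonempty (Str b) := ⟨(0 : ℕ)⟩

instance (b : ℕ → Bool) : Infinite (Str b) := inferInstanceAs (Infinite ℕ)

/-- `R k` is empty if `b k = false`, and otherwise it is the equivalence relation on `ℕ` whose classes are
`{0, 1}` and the dyadic intervals `[2 ^ n, 2 ^ (n + 1))`, `n ≥ 1`. -/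
instance instStr (b : ℕ → Bool) : Lg.Structure (Str b) where
  funMap := fun f => Empty.elim f
  RelMap := fun {_} r => match r with
    | .R k => fun v => b k = true ∧ Nat.log 2 (v 0) = Nat.log 2 (v 1)

/-- The complete theory of `Str b`. -/
def T (b : ℕ → Bool) : Lg.Theory := Lg.completeTheory (Str b)

/-- The theory of an infinite set with all relations empty. -/
abbrev T₀ : Lg.Theory := T fun _ => false

end Pool.Agent.H18.KO
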