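import Pool.Agent.H18.KO.Triv

set_option autoImplicit false

open FirstOrder FirstOrder.Language Cardinal Filter

namespace Pool.Agent.H18.KO

/-- The inner index set. -/
abbrev J : Type := ℕ → ℕ

/-- The index set `ℕ × {finite subsets of J}`. -/
abbrev II : Type := ℕ × Finset J

noncomputable def D0 : Ultrafilter (Finset J) := Ultrafilter.of Filter.atTop

/-- first `D0` on the second coordinate, then a nonprincipal ultrafilter on `ℕ` -/
noncomputable def DD : Ultrafilter II :=
  Ultrafilter.bind (Filter.hyperfilter ℕ) fun n => D0.map (Prod.mk n)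

theorem mem_DD (s : Set II) : s ∈ DD ↔ ∀ᶠ n in (Filter.hyperfilter ℕ : Filter ℕ), ∀ᶠ t in (D0 : Filter (Finset J)), (n, t) ∈ s := by
  rfl

theorem ev_DD (p : II → Prop) : (∀ᶠ i in (DD : Filter II), p i) ↔
    ∀ᶠ n in (Filter.hyperfilter ℕ : Filter ℕ), ∀ᶠ t in (D0 : Filter (Finset J)), p (n, t) := by
  rfl

theorem mk_II : #II = #J := by
  have h1 : #(Finset J) = #J := Cardinal.mk_finset_of_infinite J
  have h2 : ℵ₀ ≤ #J := Cardinal.aleph0_le_mk J
  rw [Cardinal.mk_prod, Cardinal.lift_id, Cardinal.lift_id, h1, Cardinal.mk_nat]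
  exact Cardinal.mul_eq_right h2 h2 Cardinal.aleph0_ne_zero

theorem regular_DD : Regular DD := by
  classical
  obtain ⟨e⟩ : Nonempty (II ≃ J) := Cardinal.eq.1 mk_II
  refine ⟨fun i => {x : II | e i ∈ x.2}, ?_, ?_⟩
  · intro i
    rw [mem_DD]
    refine Filter.Eventually.of_forall fun n => ?_
    have h1 : ∀ᶠ t in (Filter.atTop : Filter (Finset J)), ({e i} : Finset J) ≤ t :=
      Filter.eventually_ge_atTop _
    have h2 := (Ultrafilter.of_le (Filter.atTop : Filter (Finset J))) h1
    refine Filter.mem_of_superset h2 fun t ht => ?_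
    exact ht (Finset.mem_singleton_self _)
  · intro t
    have h1 : {i | t ∈ (fun i => {x : II | e i ∈ x.2}) i} = e ⁻¹' (t.2 : Set J) := rfl
    rw [h1]
    exact t.2.finite_toSet.preimage e.injective.injOn

/-- a function with values in finite sets depending on the first coordinate only is almost everywhere a function
of the first coordinate -/
theorem ae_fst {f : II → ℕ} {C : ℕ → Set ℕ} (hC : ∀ n, (C n).Finite)
    (hf : ∀ᶠ i in (DD : Filter II), f i ∈ C i.1) :
    ∃ g : ℕ → ℕ, ∀ᶠ i in (DD : Filter II), f i = g i.1 := by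
  classical
  rw [ev_DD] at hf
  have h1 : ∀ n, (∀ᶠ t in (D0 : Filter (Finset J)), f (n, t) ∈ C n) →
      ∃ m, ∀ᶠ t in (D0 : Filter (Finset J)), f (n, t) = m := by
    intro n hn
    have h2 : ∀ᶠ t in (D0 : Filter (Finset J)), ∃ m ∈ C n, f (n, t) = m :=
      hn.mono fun t ht => ⟨_, ht, rfl⟩
    rw [Ultrafilter.eventually_exists_mem_iff (hC n)] at h2
    obtain ⟨m, _, hm⟩ := h2
    exact ⟨m, hm⟩
  let g : ℕ → ℕ := fun n => if h : ∃ m, ∀ᶠ t in (D0 : Filter (Finset J)), f (n, t) = m then h.choose else 0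
  refine ⟨g, ?_⟩
  rw [ev_DD]
  refine hf.mono fun n hn => ?_
  have h2 := h1 n hn
  have h3 : g n = h2.choose := dif_pos h2
  show ∀ᶠ t in (D0 : Filter (Finset J)), f (n, t) = g n
  rw [h3]
  exact h2.choose_spec

theorem not_saturates {b : ℕ → Bool} {k : ℕ} (hb : b k = true) : ¬ Saturates DD (T b) := by
  classical
  intro hsat
  have hmod : Str b ⊨ T b := by
    show Str b ⊨ Lg.completeTheory (Str b)
    infer_instance
  have hS := hsat (Str b) hmod
  -- the class of the element `(n, t) ↦ 2 ^ n`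
  let N := (DD : Filter II).Product fun _ => Str b
  let q : (II → ℕ) → N := fun f => Quotient.mk _ (fun i => (f i : Str b))
  have hq : ∀ f g : II → ℕ, q f = q g ↔ ∀ᶠ i in (DD : Filter II), f i = g i := by
    intro f g
    exact Quotient.eq''
  have hrep : ∀ x : N, ∃ f : II → ℕ, q f = x := fun x => Quotient.exists_rep x
  have hR : ∀ f g : II → ℕ, Structure.RelMap (L := Lg) (Rel.R k) ![q f, q g] ↔
      ∀ᶠ i in (DD : Filter II), Nat.log 2 (f i) = Nat.log 2 (g i) := by
    intro f g
    have h1 := Ultraproduct.realize_formula_cast (L := Lg) (M := fun _ : II => Str b) (u := DD)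
      (Relations.formula₂ (L := Lg) (α := Fin 2) (Rel.R k) (Term.var 0) (Term.var 1))
      (fun j i => if j = 0 then f i else g i)
    rw [Formula.realize_rel₂] at h1
    simp only [Term.realize_var] at h1
    refine h1.trans ?_
    refine Filter.eventually_congr (Filter.Eventually.of_forall fun i => ?_)
    rw [Formula.realize_rel₂]
    exact ⟨fun h => h.2, fun h => ⟨hb, h⟩⟩
  let a : N := q fun i => 2 ^ i.1
  let A : Set N := {x | Structure.RelMap (L := Lg) (Rel.R k) ![x, a]}
  have hAmem : ∀ f : II → ℕ, q f ∈ A ↔ ∀ᶠ i in (DD : Filter II), Nat.log 2 (f i) = i.1 := by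
    intro f
    show Structure.RelMap (L := Lg) (Rel.R k) ![q f, q fun i => 2 ^ i.1] ↔ _
    rw [hR]
    refine Filter.eventually_congr (Filter.Eventually.of_forall fun i => ?_)
    show Nat.log 2 (f i) = Nat.log 2 (2 ^ i.1) ↔ _
    rw [Nat.log_pow (by norm_num)]
  have haA : a ∈ A := (hAmem _).2 (Filter.Eventually.of_forall fun i => Nat.log_pow (by norm_num) _)
  have hAcard : #A ≤ #II := by
    rw [mk_II]
    have h1 : A ⊆ Set.range fun g : J => q fun i => g i.1 := by
      intro x hx
      obtain ⟨f, rfl⟩ := hrep x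
      rw [hAmem] at hx
      obtain ⟨g, hg⟩ := ae_fst (f := f) (C := fun n => {m | m < 2 ^ (n + 1)})
        (fun n => Set.finite_lt_nat _) (hx.mono fun i hi => by
          show f i < 2 ^ (i.1 + 1)
          rw [← hi]
          exact Nat.lt_pow_succ_log_self (by norm_num) _)
      exact ⟨g, ((hq _ _).2 hg).symm⟩
    exact (Cardinal.mk_le_mk_of_subset h1).trans Cardinal.mk_range_le
  have hAinf : A.Infinite := by
    have hinj : Set.InjOn (fun j : ℕ => q fun i => if j < 2 ^ i.1 then 2 ^ i.1 + j else 2 ^ i.1) Set.univ := by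
      intro j _ j' _ hjj
      have h1 := (hq _ _).1 hjj
      rw [ev_DD] at h1
      have hev : ∀ j : ℕ, ∀ᶠ n in (Filter.hyperfilter ℕ : Filter ℕ), j < 2 ^ n := by
        intro j
        have h2 : ∀ᶠ n in (Filter.cofinite : Filter ℕ), j < 2 ^ n := by
          rw [Nat.cofinite_eq_atTop]
          filter_upwards [Filter.eventually_ge_atTop j] with n hn
          exact lt_of_le_of_lt hn Nat.lt_two_pow_self
        exact Filter.hyperfilter_le_cofinite h2
      obtain ⟨n, ⟨hn1, hn2⟩, hn3⟩ := (((hev j).and (hev j')).and h1).exists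
      obtain ⟨t, ht⟩ := hn3.exists
      rw [if_pos hn1, if_pos hn2] at ht
      exact Nat.add_left_cancel ht
    have h2 : (Set.range fun j : ℕ => q fun i => if j < 2 ^ i.1 then 2 ^ i.1 + j else 2 ^ i.1) ⊆ A := by
      rintro _ ⟨j, rfl⟩
      rw [hAmem]
      refine Filter.Eventually.of_forall fun i => ?_
      split_ifs with hj
      · rw [Nat.log_eq_iff (Or.inr ⟨by norm_num, by positivity⟩)]
        constructor
        · exact Nat.le_add_right _ _
        · rw [pow_succ]; omega
      · exact Nat.log_pow (by norm_num) _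
    exact (Set.infinite_range_of_injective (Set.injOn_univ.1 hinj)).mono h2
  -- the type of a new element of the class
  let p : Set (Lg.Formula (A ⊕ Unit)) :=
    {φ | φ = Relations.formula₂ (L := Lg) (Rel.R k) (Term.var (Sum.inr ())) (Term.var (Sum.inl ⟨a, haA⟩)) ∨
      ∃ c : A, φ = ∼(Term.equal (L := Lg) (Term.var (Sum.inr ())) (Term.var (Sum.inl c)))}
  obtain ⟨x, hx⟩ := hS A hAcard p (by
    intro s hs
    have hbad : ∀ φ ∈ s, {x | x ∈ A ∧ ¬ φ.Realize (Sum.elim (fun a : A => (a : N)) (fun _ => x))}.Finite := by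
      intro φ hφ
      rcases hs hφ with rfl | ⟨c, rfl⟩
      · refine Set.Finite.subset Set.finite_empty ?_
        rintro x ⟨hxA, hx⟩
        apply hx
        rw [Formula.realize_rel₂]
        exact hxA
      · refine Set.Finite.subset (Set.finite_singleton (c : N)) ?_
        rintro x ⟨hxA, hx⟩
        rw [Formula.realize_not, not_not, Formula.realize_equal] at hx
        exact hx
    have hun : (⋃ φ ∈ s, {x | x ∈ A ∧ ¬ φ.Realize (Sum.elim (fun a : A => (a : N)) (fun _ => x))}).Finite :=
      Set.Finite.biUnion s.finite_toSet hbad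
    obtain ⟨x, hxA, hx⟩ := (hAinf.sdiff hun).nonempty
    refine ⟨x, fun φ hφ => ?_⟩
    by_contra hcon
    apply hx
    simp only [Set.mem_iUnion]
    exact ⟨φ, hφ, hxA, hcon⟩)
  have h1 := hx _ (Or.inl rfl)
  rw [Formula.realize_rel₂] at h1
  have hxA : x ∈ A := h1
  have h2 := hx _ (Or.inr ⟨⟨x, hxA⟩, rfl⟩)
  rw [Formula.realize_not, Formula.realize_equal] at h2
  exact h2 rfl

/-- `T b ⊴ T₀` if and only if `b` is identically false. -/
theorem keisler_iff (b : ℕ → Bool) : KeislerLE (T b) T₀ ↔ ∀ k, b k = false := by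
  constructor
  · intro h k
    by_contra hk
    rw [Bool.not_eq_false] at hk
    exact not_saturates hk (h II DD regular_DD (saturates_T0 regular_DD))
  · intro h
    have hb : b = fun _ => false := funext h
    subst hb
    intro I _ D _ hD
    exact hD

end Pool.Agent.H18.KO
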