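import Pool.Agent.H18.KO.Defs

set_option autoImplicit false

open FirstOrder FirstOrder.Language Cardinal Filter

namespace Pool.Agent.H18.KO

/-- A regular ultrapower of an infinite set is large. -/
theorem mk_lt_product {I M : Type} [Infinite M] {D : Ultrafilter I} (hD : Regular D) :
    #I < #((D : Filter I).Product fun _ => M) := by
  obtain ⟨X, hX, hfin⟩ := hD
  rw [← not_le]
  intro hle
  have hne : Nonempty M := inferInstance
  let m0 : M := hne.some
  have hneN : Nonempty ((D : Filter I).Product fun _ => M) :=
    ⟨Quotient.mk _ (fun _ => m0)⟩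
  obtain ⟨f, hf⟩ : ∃ f : I → ((D : Filter I).Product fun _ => M), Function.Surjective f := by
    obtain ⟨g⟩ := hle
    exact ⟨Function.invFun g, Function.invFun_surjective g.injective⟩
  have hrep : ∀ i, ∃ g : I → M, Quotient.mk ((D : Filter I).productSetoid fun _ => M) g = f i :=
    fun i => Quotient.exists_rep (f i)
  choose g hg using hrep
  have hex : ∀ t, ∃ m : M, m ∉ (fun i => g i t) '' {i | t ∈ X i} := by
    intro t
    exact ((hfin t).image _).exists_notMem
  choose h hh using hex
  obtain ⟨i, hi⟩ := hf (Quotient.mk _ h)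
  rw [← hg i] at hi
  have h1 : ∀ᶠ t in (D : Filter I), g i t = h t := Quotient.exact hi
  have h2 : ∀ᶠ t in (D : Filter I), t ∈ X i := hX i
  obtain ⟨t, ht1, ht2⟩ := (h1.and h2).exists
  exact hh t ⟨i, ht2, ht1⟩

/-- the sentence saying that `R k` is empty -/
noncomputable def emptyS (k : ℕ) : Lg.Sentence :=
  (Relations.boundedFormula₂ (L := Lg) (α := Empty) (n := 2) (Rel.R k) (Term.var (Sum.inr 0))
    (Term.var (Sum.inr 1))).not.all.all

theorem realize_emptyS (N : Type) [Lg.Structure N] (k : ℕ) :
    N ⊨ emptyS k ↔ ∀ x y : N, ¬ Structure.RelMap (L := Lg) (Rel.R k) ![x, y] := by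
  unfold emptyS Sentence.Realize Formula.Realize
  simp only [BoundedFormula.realize_all, BoundedFormula.realize_not, BoundedFormula.realize_rel₂,
    Term.realize_var, Sum.elim_inr]
  constructor
  · intro h x y
    exact h x y
  · intro h x y
    exact h x y

theorem emptyS_mem (k : ℕ) : emptyS k ∈ T₀ := by
  show Str (fun _ => false) ⊨ emptyS k
  rw [realize_emptyS]
  intro x y h
  exact absurd h.1 (by simp)

theorem infinite_of_model (b : ℕ → Bool) (M : Type) [Lg.Structure M] (hM : M ⊨ T b) : Infinite M := by
  rw [← model_infiniteTheory_iff (L := Lg)]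
  refine Theory.Model.mono hM ?_
  intro φ hφ
  show Str b ⊨ φ
  have h1 : Str b ⊨ Lg.infiniteTheory := (model_infiniteTheory_iff (L := Lg)).2 inferInstance
  exact h1.realize_of_mem φ hφ

/-- in a model in which all relations are empty, every permutation is an automorphism -/
def permIso {N : Type} [Lg.Structure N] (h : ∀ k, ∀ x y : N, ¬ Structure.RelMap (L := Lg) (Rel.R k) ![x, y])
    (e : N ≃ N) : N ≃[Lg] N where
  toEquiv := e
  map_fun' := fun f => Empty.elim f
  map_rel' := by
    intro n r x
    cases r with
    | R k =>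
      have h1 : ∀ z : Fin 2 → N, ¬ Structure.RelMap (L := Lg) (Rel.R k) z := by
        intro z
        have := h k (z 0) (z 1)
        have hz : ![z 0, z 1] = z := by ext i; fin_cases i <;> rfl
        rwa [hz] at this
      exact ⟨fun hx => absurd hx (h1 _), fun hx => absurd hx (h1 _)⟩

/-- the truth of a formula only depends on the values of its free variables -/
theorem realize_congr {L : FirstOrder.Language.{0, 0}} {N α : Type} [L.Structure N] [DecidableEq α]
    (φ : L.Formula α) {v w : α → N} (h : ∀ a ∈ φ.freeVarFinset, v a = w a) :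
    φ.Realize v ↔ φ.Realize w := by
  have hs : (φ.freeVarFinset : Set α) ⊆ (φ.freeVarFinset : Set α) := subset_rfl
  have h1 := BoundedFormula.realize_restrictFreeVar' (φ := φ) hs (v := v) (xs := default)
  have h2 := BoundedFormula.realize_restrictFreeVar' (φ := φ) hs (v := w) (xs := default)
  have h3 : (fun a : ((φ.freeVarFinset : Set α) : Type) => v a) =
      fun a : ((φ.freeVarFinset : Set α) : Type) => w a := by
    funext a
    exact h a a.2
  refine h1.symm.trans (Iff.trans ?_ h2)
  exact iff_of_eq (congrArg (fun z => BoundedFormula.Realize _ z _) h3)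

theorem saturated_of_empty {N : Type} [Lg.Structure N]
    (h : ∀ k, ∀ x y : N, ¬ Structure.RelMap (L := Lg) (Rel.R k) ![x, y]) {κ : Cardinal.{0}}
    (hκ : κ < #N) : Saturated Lg N κ := by
  classical
  intro A hA p hp
  obtain ⟨c0, hc0⟩ : ∃ c0 : N, c0 ∉ A := by
    by_contra hcon
    push Not at hcon
    have hA1 : A = Set.univ := Set.eq_univ_of_forall hcon
    rw [hA1, Cardinal.mk_univ] at hA
    exact absurd hA (not_le.2 hκ)
  by_contra hno
  push Not at hno
  choose ψ hψp hψ using hno
  -- the formula failing at `c0`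
  let φ := ψ c0
  let B : Set N := {x | ∃ hx : x ∈ A, (Sum.inl ⟨x, hx⟩ : A ⊕ Unit) ∈ φ.freeVarFinset}
  have hBfin : B.Finite := by
    have h1 : B ⊆ (fun z : A ⊕ Unit => Sum.elim (fun a : A => (a : N)) (fun _ => c0) z) ''
        (φ.freeVarFinset : Set (A ⊕ Unit)) := by
      rintro x ⟨hx, hx2⟩
      exact ⟨Sum.inl ⟨x, hx⟩, hx2, rfl⟩
    exact (φ.freeVarFinset.finite_toSet.image _).subset h1
  have hout : ∀ x, φ.Realize (Sum.elim (fun a : A => (a : N)) (fun _ => x)) → x ∈ B := by
    intro x hx
    by_contra hxB
    apply hψ c0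
    have h1 := StrongHomClass.realize_formula (permIso h (Equiv.swap x c0)) φ
      (v := Sum.elim (fun a : A => (a : N)) (fun _ => x))
    have h2 := h1.2 hx
    refine (realize_congr φ ?_).1 h2
    rintro (⟨a, ha⟩ | u) hfv
    · show Equiv.swap x c0 a = a
      refine Equiv.swap_apply_of_ne_of_ne ?_ ?_
      · rintro rfl
        exact hxB ⟨ha, hfv⟩
      · rintro rfl
        exact hc0 ha
    · show Equiv.swap x c0 x = c0
      exact Equiv.swap_apply_left _ _
  obtain ⟨x, hx⟩ := hp (insert φ (hBfin.toFinset.image ψ)) (by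
    intro θ hθ
    rw [Finset.mem_coe, Finset.mem_insert, Finset.mem_image] at hθ
    rcases hθ with rfl | ⟨y, _, rfl⟩
    · exact hψp c0
    · exact hψp y)
  have h1 := hout x (hx φ (Finset.mem_insert_self _ _))
  refine hψ x (hx (ψ x) (Finset.mem_insert_of_mem ?_))
  exact Finset.mem_image_of_mem _ (hBfin.mem_toFinset.2 h1)

/-- every regular ultrafilter saturates the theory of an infinite set with empty relations -/
theorem saturates_T0 {I : Type} {D : Ultrafilter I} (hD : Regular D) : Saturates D T₀ := by
  intro M _ _ hM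
  have hinf : Infinite M := infinite_of_model _ M hM
  refine saturated_of_empty ?_ (mk_lt_product hD)
  intro k
  rw [← realize_emptyS, Ultraproduct.sentence_realize]
  exact Filter.Eventually.of_forall fun _ => hM.realize_of_mem _ (emptyS_mem k)

end Pool.Agent.H18.KO
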